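import Pool.Agent.H608.Ge.LogSer
import Pool.Agent.H608.Ge.Omit
import Pool.Agent.H608.Me.LinForms
import Mathlib

/-!
# Measures of algebraic independence for logarithms with very few omitted blocks

Let `c_m(n) = 1` if `m` does not divide `n`, `c_m(n) = 1 - m` if it does. Then `log m = ∑ c_m(n) / n`. For a set `E`
of positive integers let `L_E(m)` be this series without its `k`-th blocks (the sums over `m (k - 1) < n ≤ m k`) for
`k ∈ E`, and let `log_E` be the homomorphism from the positive rational numbers to the real numbers with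
`log_E (p) = L_E (p)` for all primes `p`; for `E = ∅` this is the logarithm. For every `ε > 0` there are sets `E`
with at most `ε log log K` elements up to `K` such that the inequality of the problem holds for `log_E` and all positive
rational numbers: if `log a_1, …, log a_n` are linearly independent over `ℚ`, then
`|P (log_E a_1, …, log_E a_n)| ≥ H ^ (-C)` for all nonzero integer polynomials of bounded degree and height `≤ H`.
-/

set_option autoImplicit false

namespace Pool.Agent.Results.MP_3cf473_nt.PerturbedLogarithms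

open Finset Filter Topology Metric
open Pool.Agent.H608.Ge (ul serL hasSum_ul linInd_L tendsto_omit Ser)

/-- `A` has at least `H ^ δ` elements in `[H, 2 H)`, for some `δ > 0` and all large `H` -/
def PolyDense (A : Set ℕ) : Prop :=
  ∃ δ : ℝ, 0 < δ ∧ ∀ᶠ H : ℕ in atTop, (H : ℝ) ^ δ ≤ (({k : ℕ | k ∈ A ∧ H ≤ k ∧ k < 2 * H}.ncard : ℕ) : ℝ)

/-- the coefficients: `1 - m` at the multiples of `m`, `1` elsewhere -/
noncomputable def coef (m n : ℕ) : ℝ := if m ∣ n then 1 - m else 1

/-- the `k`-th block of `m` terms of the series `∑ c_m(n) / n`, `k = 1, 2, …` -/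
noncomputable def block (m k : ℕ) : ℝ := ∑ n ∈ Ioc (m * (k - 1)) (m * k), coef m n / n

open Classical in
/-- the series without the blocks with numbers in `E` -/
noncomputable def L (E : Set ℕ) (m : ℕ) : ℝ := ∑' k : ℕ, if k + 1 ∈ E then 0 else block m (k + 1)

/-- the changed logarithm of a positive integer: `∑ v_p(m) L_E(p)` -/
noncomputable def logN (E : Set ℕ) (m : ℕ) : ℝ := m.factorization.sum fun p k => (k : ℝ) * L E p

/-- the changed logarithm of a positive rational number -/
noncomputable def logE (E : Set ℕ) (a : ℚ) : ℝ := logN E a.num.natAbs - logN E a.den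

lemma block_eq {m k : ℕ} (hm : 2 ≤ m) (hk : 1 ≤ k) : block m k = ul m k := by
  obtain ⟨l, rfl⟩ : ∃ l, k = l + 1 := ⟨k - 1, by omega⟩
  unfold block ul
  have h1 : Ioc (m * (l + 1 - 1)) (m * (l + 1)) = (range m).image fun j => m * (l + 1) - j := by
    ext n
    simp only [Nat.add_sub_cancel, mem_Ioc, mem_image, mem_range]
    rw [Nat.mul_succ]
    constructor
    · rintro ⟨h1, h2⟩
      exact ⟨m * l + m - n, by omega, by omega⟩
    · rintro ⟨j, hj, rfl⟩
      omega
  have hle : m ≤ m * (l + 1) := Nat.le_mul_of_pos_right m (by omega)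
  rw [h1, sum_image]
  · have h2 : ∀ j ∈ range m, coef m (m * (l + 1) - j) / ((m * (l + 1) - j : ℕ) : ℝ) =
        1 / ((m : ℝ) * ((l + 1 : ℕ) : ℝ) - j) - if j = 0 then 1 / ((l + 1 : ℕ) : ℝ) else 0 := by
      intro j hj
      have hj' := mem_range.1 hj
      rw [Nat.cast_sub (by omega)]
      push_cast
      unfold coef
      by_cases hj0 : j = 0
      · rw [if_pos hj0, hj0, Nat.sub_zero, if_pos (dvd_mul_right _ _)]
        push_cast
        have : (m : ℝ) ≠ 0 := by exact_mod_cast (by omega : m ≠ 0)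
        have : (l : ℝ) + 1 ≠ 0 := by positivity
        rw [sub_zero]
        field_simp
      · have h3 : ¬ m ∣ m * (l + 1) - j := by
          intro h4
          have h5 : m ∣ j := by
            have h6 := Nat.dvd_sub (dvd_mul_right m (l + 1)) h4
            rwa [Nat.sub_sub_self (by omega)] at h6
          exact absurd (Nat.le_of_dvd (by omega) h5) (by omega)
        rw [if_neg hj0, if_neg h3, sub_zero]
    rw [sum_congr rfl h2, sum_sub_distrib, sum_ite_eq' (range m) 0, if_pos (mem_range.2 (by omega))]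
  · intro i hi j hj hij
    have hi' := mem_range.1 (mem_coe.1 hi)
    have hj' := mem_range.1 (mem_coe.1 hj)
    simp only at hij
    omega

open Classical in
lemma L_eq (E : Set ℕ) {m : ℕ} (hm : 2 ≤ m) : L E m = ∑' k : ℕ, if k + 1 ∈ E then 0 else ul m (k + 1) := by
  unfold L
  apply tsum_congr
  intro k
  rw [block_eq hm (by omega)]

lemma L_empty {m : ℕ} (hm : 2 ≤ m) : L ∅ m = Real.log m := by
  rw [L_eq ∅ hm]
  simp only [Set.mem_empty_iff_false, if_false]
  exact (hasSum_ul (by omega)).tsum_eq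

lemma logN_empty (m : ℕ) : logN ∅ m = Real.log m := by
  rw [Real.log_nat_eq_sum_factorization]
  unfold logN
  apply Finsupp.sum_congr
  intro p hp
  rw [L_empty (Nat.prime_of_mem_primeFactors (by rwa [Nat.support_factorization] at hp)).two_le]

lemma logN_mul (E : Set ℕ) {m n : ℕ} (hm : m ≠ 0) (hn : n ≠ 0) : logN E (m * n) = logN E m + logN E n := by
  unfold logN
  rw [Nat.factorization_mul hm hn, Finsupp.sum_add_index']
  · intro p
    simp
  · intro p k l
    push_cast
    ring

/-- sums over the prime factors, as sums over all integers from `2` to `t + 1` -/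
lemma sum_eq {m t : ℕ} (ht : m ≤ t) (g : ℕ → ℝ) :
    (m.factorization.sum fun p k => (k : ℝ) * g p) = ∑ j : Fin t, (m.factorization ((j : ℕ) + 2) : ℝ) * g ((j : ℕ) + 2) := by
  have h1 : m.factorization.support ⊆ (range t).image (· + 2) := by
    intro p hp
    rw [Nat.support_factorization] at hp
    have h2 := (Nat.prime_of_mem_primeFactors hp).two_le
    have h3 := Nat.le_of_mem_primeFactors hp
    rw [mem_image]
    exact ⟨p - 2, mem_range.2 (by omega), by omega⟩
  rw [Finsupp.sum_of_support_subset _ h1 _ (fun i _ => by simp), sum_image (fun i _ j _ h => by simpa using h),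
    ← Fin.sum_univ_eq_sum_range fun j => (m.factorization (j + 2) : ℝ) * g (j + 2)]

/-- the exponent of the prime `j + 2` in `a` (zero if `j + 2` is not a prime number) -/
def ex (a : ℚ) (j : ℕ) : ℤ := (a.num.natAbs.factorization (j + 2) : ℤ) - (a.den.factorization (j + 2) : ℤ)

lemma logE_eq (E : Set ℕ) {a : ℚ} {t : ℕ} (h1 : a.num.natAbs ≤ t) (h2 : a.den ≤ t) :
    logE E a = ∑ j : Fin t, (ex a j : ℝ) * L E ((j : ℕ) + 2) := by
  unfold logE logN
  rw [sum_eq h1, sum_eq h2, ← sum_sub_distrib]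
  refine sum_congr rfl fun j _ => ?_
  unfold ex
  push_cast
  ring

lemma logE_empty {a : ℚ} (ha : 0 < a) : logE ∅ a = Real.log a := by
  unfold logE
  rw [logN_empty, logN_empty]
  have h1 : (0 : ℝ) < a.num.natAbs := by
    have : a.num.natAbs ≠ 0 := by
      have := Rat.num_pos.2 ha
      omega
    positivity
  have h2 : (0 : ℝ) < a.den := by exact_mod_cast a.pos
  rw [← Real.log_div h1.ne' h2.ne']
  congr 1
  have h3 : ((a.num.natAbs : ℕ) : ℝ) = (a.num : ℝ) := by
    have h4 : ((a.num.natAbs : ℕ) : ℤ) = a.num := Int.natAbs_of_nonneg (Rat.num_pos.2 ha).le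
    rw [← Int.cast_natCast, h4]
  rw [h3]
  exact_mod_cast Rat.num_div_den a

lemma logE_mul (E : Set ℕ) {a b : ℚ} (ha : 0 < a) (hb : 0 < b) : logE E (a * b) = logE E a + logE E b := by
  have hab := mul_pos ha hb
  have e1 : (a * b).num.natAbs * (a.den * b.den) = a.num.natAbs * b.num.natAbs * (a * b).den := by
    have h1 := Rat.mul_num_den' a b
    have h2 := congrArg Int.natAbs h1
    simp only [Int.natAbs_mul, Int.natAbs_natCast] at h2
    rw [← mul_assoc]
    exact h2
  have hn : ∀ c : ℚ, 0 < c → c.num.natAbs ≠ 0 := by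
    intro c hc
    have := Rat.num_pos.2 hc
    omega
  have h3 := congrArg (logN E) e1
  rw [logN_mul E (hn _ hab) (mul_ne_zero a.den_nz b.den_nz), logN_mul E a.den_nz b.den_nz,
    logN_mul E (mul_ne_zero (hn _ ha) (hn _ hb)) (a * b).den_nz, logN_mul E (hn _ ha) (hn _ hb)] at h3
  unfold logE
  linarith

open Classical in
theorem result :
    -- without omitted blocks this is the logarithm
    (∀ a : ℚ, 0 < a → logE ∅ a = Real.log a) ∧
    -- it is always a homomorphism
    (∀ (E : Set ℕ) (a b : ℚ), 0 < a → 0 < b → logE E (a * b) = logE E a + logE E b) ∧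
    ∀ A : Set ℕ, PolyDense A → ∀ ε : ℝ, 0 < ε → ∀ M : ℕ,
      -- a given sequence of tuples of linearly independent entire functions
      ∀ (t m : ℕ → ℕ) (f : ∀ s, Fin (m s) → (Fin (t s) → ℂ) → ℂ), (∀ s i, AnalyticOnNhd ℂ (f s i) Set.univ) →
      (∀ s, ∀ v : Fin (m s) → ℂ, v ≠ 0 → ∃ w, ∑ i, v i * f s i w ≠ 0) →
      ∃ E : Set ℕ, E ⊆ A ∧ (∀ k ∈ E, 1 ≤ k ∧ M ≤ k) ∧
        (∀ K : ℕ, 16 ≤ K → (({k : ℕ | k ∈ E ∧ k ≤ K}.ncard : ℕ) : ℝ) ≤ ε * Real.log (Real.log K)) ∧
        -- the inequality of the problem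
        (∀ (n : ℕ) (a : Fin n → ℚ), (∀ i, 0 < a i) → LinearIndependent ℚ (fun i => Real.log (a i)) →
          ∀ d : ℕ, ∃ C : ℝ, 0 < C ∧ ∀ H : ℝ, 2 ≤ H → ∀ P : MvPolynomial (Fin n) ℤ, P ≠ 0 → P.totalDegree ≤ d →
            (∀ α, |((P.coeff α : ℤ) : ℝ)| ≤ H) → H ^ (-C) ≤ |MvPolynomial.aeval (fun i => logE E (a i)) P|) ∧
        -- entire functions of the numbers `L_E(2), L_E(3), …`
        ∀ s, ∃ C : ℝ, 0 < C ∧ ∀ H : ℝ, 2 ≤ H → ∀ v : Fin (m s) → ℤ, v ≠ 0 → (∀ i, |((v i : ℤ) : ℝ)| ≤ H) →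
          H ^ (-C) ≤ ‖∑ i, (v i : ℂ) * f s i fun j => ((L E ((j : ℕ) + 2) : ℝ) : ℂ)‖ := by
  refine ⟨fun a ha => logE_empty ha, fun E a b ha hb => logE_mul E ha hb, fun A hA ε hε M t m f hf hfi => ?_⟩
  obtain ⟨E, z, _, hEA, hEK, hl, hP, hF⟩ := Pool.Agent.H608.Me.lfMea (fun j => serL (j + 2) (Nat.le_add_left 2 _))
    linInd_L (fun s => { t := t s, m := m s, f := f s, hf := hf s, hfi := hfi s }) hA hε M
  have h0E : 0 ∉ E := fun h => by
    have := (hEA 0 h).2.2
    omega
  have hz : z = fun j => L E (j + 2) := by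
    funext j
    rw [L_eq E (Nat.le_add_left 2 j)]
    exact tendsto_nhds_unique (hl j) (tendsto_omit (hasSum_ul (by omega)) h0E)
  rw [hz] at hP hF
  -- real heights
  have hreal : ∀ (H c x : ℝ), 2 ≤ H → 0 < c → ((⌊H⌋₊ : ℕ) : ℝ) ^ (-c) ≤ x → H ^ (-c) ≤ x := by
    intro H c x hH hc hx
    refine le_trans ?_ hx
    have h1 : (2 : ℝ) ≤ (⌊H⌋₊ : ℕ) := by
      have : 2 ≤ ⌊H⌋₊ := Nat.le_floor (by exact_mod_cast hH)
      exact_mod_cast this
    exact Real.rpow_le_rpow_of_nonpos (by linarith) (Nat.floor_le (by linarith)) (by linarith)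
  have hint : ∀ (H : ℝ) (v : ℤ), 2 ≤ H → |(v : ℝ)| ≤ H → |v| ≤ ((⌊H⌋₊ : ℕ) : ℤ) := by
    intro H v hH hv
    rw [Int.abs_eq_natAbs]
    have h1 : v.natAbs ≤ ⌊H⌋₊ := by
      apply Nat.le_floor
      rw [Nat.cast_natAbs]
      exact_mod_cast hv
    exact_mod_cast h1
  refine ⟨E, fun k hk => (hEA k hk).1, fun k hk => ⟨(hEA k hk).2.2, (hEA k hk).2.1⟩, hEK, ?_, ?_⟩
  · intro n a ha hind d
    obtain ⟨T, hT⟩ : ∃ T, T = ∑ i, (((a i).num.natAbs) + (a i).den) := ⟨_, rfl⟩
    have hT1 : ∀ i, (a i).num.natAbs ≤ T ∧ (a i).den ≤ T := by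
      intro i
      have h1 : (a i).num.natAbs + (a i).den ≤ T := by
        rw [hT]
        exact single_le_sum (f := fun i => (a i).num.natAbs + (a i).den) (fun _ _ => Nat.zero_le _) (mem_univ i)
      omega
    have hsurj := Pool.Agent.H608.Me.surj_of_ind (fun (i : Fin n) (j : Fin T) => ex (a i) j) (by
      intro b hb
      rw [Fintype.linearIndependent_iff] at hind
      have h1 := hind b (by
        have h2 : ∀ i, b i • Real.log (a i) = ∑ j : Fin T, (b i * (ex (a i) j : ℚ) : ℚ) * Real.log ((j : ℕ) + 2 : ℕ) := by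
          intro i
          rw [← logE_empty (ha i), logE_eq ∅ (hT1 i).1 (hT1 i).2, smul_sum]
          refine sum_congr rfl fun j _ => ?_
          rw [L_empty (by omega), Rat.smul_def]
          push_cast
          ring
        rw [sum_congr rfl fun i _ => h2 i, sum_comm]
        apply sum_eq_zero
        intro j _
        rw [← sum_mul, ← Rat.cast_sum, hb j, Rat.cast_zero, zero_mul])
      exact funext h1)
    obtain ⟨C, hC, hCb⟩ := hP n T _ hsurj d
    refine ⟨C, hC, fun H hH P hP0 hPd hPH => hreal H C _ hH hC ?_⟩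
    have h3 := hCb ⌊H⌋₊ (Nat.le_floor (by exact_mod_cast hH)) P hP0 hPd (fun α => hint H _ hH (hPH α))
    have h4 : (fun i => logE E (a i)) = fun i => ∑ j : Fin T, (ex (a i) j : ℝ) * L E ((j : ℕ) + 2) := by
      funext i
      exact logE_eq E (hT1 i).1 (hT1 i).2
    rw [h4]
    exact h3
  · intro s
    obtain ⟨C, hC, hCb⟩ := hF s
    exact ⟨C, hC, fun H hH v hv hvH => hreal H C _ hH hC
      (hCb ⌊H⌋₊ (Nat.le_floor (by exact_mod_cast hH)) v hv (fun i => hint H _ hH (hvH i)))⟩

end Pool.Agent.Results.MP_3cf473_nt.PerturbedLogarithms
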