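import Pool.Agent.H443.QM.Fin
import Pool.Graph.R_pool_sql_team_seeded_3997aac3.Q246.NR.Scales

/-!
# The measure of algebraic independence for the logarithms of almost all real quadratic units

For integers `c` and `n` let `u_c(n) = (n + √(n ^ 2 - 4 c)) / 2`, the quadratic integer of trace `n` and norm `c`.  The
numbers `u_1(n)`, `u_{-1}(n)` are all real quadratic units `> 1`, and `u_0(n) = n`.  Let `c_1, ..., c_s` be distinct.

The problem asks, for logarithms `l_1, ..., l_m` of algebraic numbers linearly independent over `ℚ`, for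
`|P(l_1, ..., l_m)| ≥ H ^ (-C)` for all nonzero integer polynomials `P` of degree at most `d` and height at most `H`.
We consider the logarithms `log u_{c_a}(n_j)`, `a ≤ s`, `j ≤ k`, for `k`-tuples of integers `n_j` in `[2, T]`.  There
are `B` and `κ > 0` which depend only on the `c_a`, `k`, `g` and `d` such that for all but `O(T ^ (k - κ))` tuples `n`
and all choices of the branches (of absolute value at most `H`) the inequality `|P(l)| ≥ H ^ (-B)` holds

* for all `H` in a long interval from `H₁` to `H₁ ^ exp (T ^ κ)`, for any sufficiently large `H₁`;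
* for a set of `H` of upper density at least `1 - T ^ (-κ)` on the doubly logarithmic scale, with one exceptional set of
  tuples for all `H`.

The same holds relative to arbitrary complex constants `ζ_1, ..., ζ_g`, uniformly in `ζ`.

The result `AlmostAllIntegers` of the library is the case `s = 1`, `c_1 = 0` (real branch).  The results of the library on
values of algebraic functions need heights at most a power of `T`, or values of polynomials.

Proof (modules `Pool.Agent.H443.QM`, `Pool.Agent.H443.QU`).  Let `Y(z) = log u_c(t + g) - log t`, `z = 1 / t`, and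
`R(z) = t / √((t + g) ^ 2 - 4 c)`.  For shifts `g` at a distance at least `1 + 4 Σ |c_a|` the products of powers of the
functions `Y` and of different functions `R` form G-systems whose constants grow polynomially in the shifts, and they are
linearly independent over `ℚ(z)` (`QU`).  The theorem of Chudnovsky and Galochkin for near relations (`Q246.NR.GKN` of the
library), applied to all multiples of one polynomial by monomials in the `Y` and the `R`, gives lower bounds for all
polynomials of bounded degree and arbitrary height in the `Y(1 / t)`, with an exponent independent of `t`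
(`QM.lowQ`).  Then the constants are eliminated (`Q246.NR.elim_rel`): after a translation of several variables by
`log t` a window `t + g`, `g ≤ t ^ κ`, contains a bounded number of integers `n` which are exceptional for a given height
(`QM.window`); induction on `k`; the branches are treated by a translation by integer multiples of `2 π i` (`QM.multiB`).
-/

set_option autoImplicit false

namespace Pool.Agent.Results.MP_3cf473_nt.QuadraticUnits

/-- the quadratic integer of trace `n` and norm `c` -/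
noncomputable def u (c : ℤ) (n : ℕ) : ℝ := ((n : ℝ) + √((n : ℝ) ^ 2 - 4 * c)) / 2

/-- `P = Σ P_e(Y) X ^ e` has degree at most `d` in `X`, its coefficients `P_e` have degree at most `d` in `Y`,
and the integer coefficients are at most `H` in absolute value -/
def Adm {σ : Type} {g : ℕ} (d : ℕ) (H : ℝ) (P : MvPolynomial σ (MvPolynomial (Fin g) ℤ)) : Prop :=
  P.totalDegree ≤ d ∧ ∀ e, (P.coeff e).totalDegree ≤ d ∧ ∀ f, |(((P.coeff e).coeff f : ℤ) : ℝ)| ≤ H

/-- the value `P(ζ, l)` -/
noncomputable def val {σ : Type} {g : ℕ} (ζ : Fin g → ℂ) (l : σ → ℂ) (P : MvPolynomial σ (MvPolynomial (Fin g) ℤ)) :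
    ℂ := MvPolynomial.eval₂ (MvPolynomial.aeval ζ).toRingHom l P

/-- the measure of algebraic independence, for polynomials of degree at most `d` and height at most `H`, of all
logarithms `l` of the numbers `u (c a) (n j)` of absolute value at most `H`, also relative to the constants `ζ` -/
def Good {k s g : ℕ} (c : Fin s → ℤ) (d B : ℕ) (ζ : Fin g → ℂ) (n : Fin k → ℕ) (H : ℝ) : Prop :=
  ∀ l : Fin k × Fin s → ℂ, (∀ p, Complex.exp (l p) = u (c p.2) (n p.1) ∧ ‖l p‖ ≤ H) →
    (∀ P : MvPolynomial (Fin k × Fin s) ℤ, P ≠ 0 → P.totalDegree ≤ d → (∀ e, |((P.coeff e : ℤ) : ℝ)| ≤ H) →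
      1 ≤ H ^ B * ‖MvPolynomial.aeval l P‖) ∧
    ∀ P : MvPolynomial (Fin k × Fin s) (MvPolynomial (Fin g) ℤ), Adm d H P →
      ∀ e, ‖MvPolynomial.aeval ζ (P.coeff e)‖ ≤ H ^ B * ‖val ζ l P‖

lemma good_of {k s g : ℕ} {c : Fin s → ℤ} {d B : ℕ} {ζ : Fin g → ℂ} {n : Fin k → ℕ} {H : ℝ}
    (h : ∀ l : Fin k × Fin s → ℂ, (∀ p, Complex.exp (l p) = u (c p.2) (n p.1) ∧ ‖l p‖ ≤ H) →
      ∀ P : MvPolynomial (Fin k × Fin s) (MvPolynomial (Fin g) ℤ), Adm d H P →
      ∀ e, ‖MvPolynomial.aeval ζ (P.coeff e)‖ ≤ H ^ B * ‖val ζ l P‖) : Good c d B ζ n H := by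
  intro l hl
  refine ⟨fun P hP hd hH => ?_, h l hl⟩
  obtain ⟨e, he⟩ := MvPolynomial.support_nonempty.2 hP
  rw [MvPolynomial.mem_support_iff] at he
  have hH0 : 0 ≤ H := (abs_nonneg _).trans (hH e)
  set P' : MvPolynomial (Fin k × Fin s) (MvPolynomial (Fin g) ℤ) := MvPolynomial.map (MvPolynomial.C) P with hP'
  have hadm : Adm d H P' := by
    refine ⟨?_, fun e => ⟨?_, fun f => ?_⟩⟩
    · refine le_trans ?_ hd
      unfold MvPolynomial.totalDegree
      exact Finset.sup_mono (MvPolynomial.support_map_subset _ _)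
    · rw [hP', MvPolynomial.coeff_map, MvPolynomial.totalDegree_C]
      exact Nat.zero_le _
    · rw [hP', MvPolynomial.coeff_map, MvPolynomial.coeff_C]
      split_ifs
      · exact hH e
      · simpa using hH0
  have h1 := h l hl P' hadm e
  have h2 : MvPolynomial.aeval ζ (P'.coeff e) = ((P.coeff e : ℤ) : ℂ) := by
    rw [hP', MvPolynomial.coeff_map, MvPolynomial.aeval_C]
    simp
  have h3 : val ζ l P' = MvPolynomial.aeval l P := by
    rw [val, hP', MvPolynomial.eval₂_map, MvPolynomial.aeval_def]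
    congr 1
    exact RingHom.ext_int _ _
  rw [h2, h3, Complex.norm_intCast] at h1
  have h5 : (1 : ℝ) ≤ |((P.coeff e : ℤ) : ℝ)| := by exact_mod_cast Int.one_le_abs he
  exact h5.trans h1

/-- Let `c_1, ..., c_s` be distinct integers.  For all `k`, `g`, `d` there are `B`, `C` and `κ > 0` such that for all
`T ≥ 1`: for all but at most `C T ^ (k - κ)` of the tuples `n` of integers in `[2, T]` the measure `|P(l)| ≥ H ^ (-B)`
holds for the logarithms of the `k s` quadratic integers `u_{c_a}(n_j)` for all `H` with `H₁ ≤ H ≤ H₁ ^ exp (T ^ κ)`, for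
each large `H₁`; and, with one exceptional set for all `H`, for a set of `H` of upper density at least `1 - T ^ (-κ)` on
the doubly logarithmic scale; also relative to arbitrary constants. -/
theorem result {s : ℕ} (c : Fin s → ℤ) (hc : Function.Injective c) (k g d : ℕ) : ∃ (B : ℕ) (C κ : ℝ), 0 < κ ∧
    ∀ T : ℕ, 1 ≤ T →
    (∃ H₀ : ℝ, ∀ H₁ : ℝ, H₀ ≤ H₁ → ∀ ζ : Fin g → ℂ,
      (({n : Fin k → ℕ | (∀ j, 2 ≤ n j ∧ n j ≤ T) ∧
        ¬ ∀ H : ℝ, H₁ ≤ H → H ≤ H₁ ^ Real.exp ((T : ℝ) ^ κ) → Good c d B ζ n H}.ncard : ℕ) : ℝ) ≤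
        C * (T : ℝ) ^ ((k : ℝ) - κ)) ∧
    ∀ ζ : Fin g → ℂ, (({n : Fin k → ℕ | (∀ j, 2 ≤ n j ∧ n j ≤ T) ∧
      ¬ ∀ N₀ : ℕ, ∃ N, N₀ ≤ N ∧ (({j : ℕ | j < N ∧
        ¬ ∀ H : ℝ, 2 ^ (2 ^ j) ≤ H → H ≤ 2 ^ (2 ^ (j + 1)) → Good c d B ζ n H}.ncard : ℕ) : ℝ) ≤
          (T : ℝ) ^ (-κ) * N}.ncard : ℕ) : ℝ) ≤ C * (T : ℝ) ^ ((k : ℝ) - κ) := by
  classical
  set X : ℕ → Finset (Fin k → ℕ) := fun T => Fintype.piFinset (fun _ : Fin k => Finset.Icc 2 T) with hX
  have hXm : ∀ T x, x ∈ X T ↔ ∀ j, 2 ≤ x j ∧ x j ≤ T := by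
    intro T x
    rw [hX]
    simp only [Fintype.mem_piFinset, Finset.mem_Icc]
  -- the basic statement
  obtain ⟨B, C, κ, hC, hκ, hbase⟩ : ∃ (B : ℕ) (C κ : ℝ), 0 ≤ C ∧ 0 < κ ∧ ∀ T : ℕ, 1 ≤ T → ∃ H₀ : ℝ, ∀ H : ℝ, H₀ ≤ H →
      ∀ ζ : Fin g → ℂ, ((((X T).filter fun x => ¬ Good c d B ζ x H).card : ℕ) : ℝ) ≤ C * (T : ℝ) ^ ((k : ℝ) - κ) := by
    rcases Nat.eq_zero_or_pos s with rfl | hs
    · refine ⟨1, 0, 1, le_rfl, one_pos, fun T hT => ⟨1, fun H hH ζ => ?_⟩⟩
      have hgood : ∀ x : Fin k → ℕ, Good c d 1 ζ x H := by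
        intro x
        apply good_of
        intro l _ P _ e
        have h1 : P = MvPolynomial.C (P.coeff e) := by
          have h2 := MvPolynomial.eq_C_of_isEmpty P
          have h3 : e = 0 := Subsingleton.elim _ _
          rw [h3]
          exact h2
        have h2 : val ζ l P = MvPolynomial.aeval ζ (P.coeff e) := by
          rw [val]
          conv_lhs => rw [h1]
          rw [MvPolynomial.eval₂_C]
          rfl
        rw [h2, pow_one]
        exact le_mul_of_one_le_left (norm_nonneg _) hH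
      rw [Finset.filter_false_of_mem (fun x _ => not_not.2 (hgood x))]
      simp
    · obtain ⟨B, C, κ, hC, hκ, hmain⟩ := Pool.Agent.H443.QM.multiB c hc hs k d ((d + 1) ^ g)
      refine ⟨B, C, κ, hC, hκ, fun T hT => ?_⟩
      obtain ⟨H₀, hH₀⟩ := hmain T hT
      refine ⟨max H₀ 1, fun H hH ζ => ?_⟩
      have hH1 : 1 ≤ H := (le_max_right _ _).trans hH
      have hHB : 0 < H ^ B := by positivity
      refine le_trans ?_ (hH₀ H ((le_max_left _ _).trans hH) (Fin g → Fin (d + 1)) (by simp)
        (fun f => ∏ s, ζ s ^ (f s : ℕ)))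
      refine Nat.cast_le.2 (Finset.card_le_card fun x hx => ?_)
      obtain ⟨hxX, hbad⟩ := Finset.mem_filter.1 hx
      refine Finset.mem_filter.2 ⟨hxX, ?_⟩
      by_contra hrel
      apply hbad
      apply good_of
      intro l hl P hP e₀
      by_contra hcon
      rw [not_le] at hcon
      apply hrel
      refine ⟨l, hl, ?_⟩
      have hne : MvPolynomial.aeval ζ (P.coeff e₀) ≠ 0 := by
        intro h
        rw [h, norm_zero] at hcon
        have : 0 ≤ H ^ B * ‖val ζ l P‖ := by positivity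
        linarith
      have he₀ : e₀ ∈ P.support := by
        rw [MvPolynomial.mem_support_iff]
        intro h
        rw [h, map_zero] at hne
        exact hne rfl
      obtain ⟨e₁, he₁⟩ := Pool.Agent.H443.QM.tB_surj P hP.1 e₀ he₀
      refine Pool.Agent.Q246.NR.rel_of_poly d H _ ζ
        (fun e : Fin k × Fin s → Fin (d + 1) => P.coeff (Pool.Agent.H443.QM.tB e)) (fun e => (hP.2 _).1)
        (fun e f => (hP.2 _).2 f) _ e₁ ?_ ?_
      · rw [he₁]
        exact hne
      · have h1 : ∑ e : Fin k × Fin s → Fin (d + 1), MvPolynomial.aeval ζ (P.coeff (Pool.Agent.H443.QM.tB e)) *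
            ∏ p, l p ^ (e p : ℕ) = val ζ l P := by
          rw [val, Pool.Agent.H443.QM.eval_tB _ P hP.1]
          rfl
        rw [h1]
        change ‖val ζ l P‖ ≤ (H ^ B)⁻¹ * ‖MvPolynomial.aeval ζ (P.coeff (Pool.Agent.H443.QM.tB e₁))‖
        rw [he₁, inv_mul_eq_div, le_div_iff₀ hHB, mul_comm]
        exact hcon.le
  -- many heights
  have hGG : ∀ (ζ : Fin g → ℂ) (x : Fin k → ℕ) (H H' : ℝ), 1 ≤ H → H ≤ H' → H' ≤ H ^ 2 → Good c d B ζ x H' →
      Good c d (2 * B) ζ x H := by
    intro ζ x H H' h1 h2 h3 hg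
    apply good_of
    intro l hl P hP e
    have hP' : Adm d H' P := ⟨hP.1, fun e => ⟨(hP.2 e).1, fun f => ((hP.2 e).2 f).trans h2⟩⟩
    refine ((hg l fun p => ⟨(hl p).1, (hl p).2.trans h2⟩).2 P hP' e).trans ?_
    refine mul_le_mul_of_nonneg_right ?_ (norm_nonneg _)
    rw [pow_mul]
    exact pow_le_pow_left₀ (by linarith) h3 _
  have hXc : ∀ T, (((X T).card : ℕ) : ℝ) ≤ (T : ℝ) ^ k := by
    intro T
    rw [hX]
    simp only [Fintype.card_piFinset, Nat.card_Icc, Finset.prod_const, Finset.card_univ, Fintype.card_fin]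
    have : (T + 1 - 2) ^ k ≤ T ^ k := Nat.pow_le_pow_left (by omega) k
    exact_mod_cast this
  have hfin := Pool.Agent.Q246.NR.scales X (fun ζ x H => Good c d B ζ x H) (fun ζ x H => Good c d (2 * B) ζ x H) hGG k C κ
    hC hκ hXc hbase
  refine ⟨2 * B, 4 * C + 1, κ / 2, by linarith, fun T hT => ?_⟩
  obtain ⟨⟨H₀, hH₀⟩, h2⟩ := hfin T hT
  have hset : ∀ p : (Fin k → ℕ) → Prop, {x : Fin k → ℕ | (∀ j, 2 ≤ x j ∧ x j ≤ T) ∧ p x} =
      (((X T).filter p : Finset (Fin k → ℕ)) : Set (Fin k → ℕ)) := by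
    intro p
    ext x
    rw [Finset.mem_coe, Finset.mem_filter, hXm]
    rfl
  have hsetj : ∀ (N : ℕ) (p : ℕ → Prop), {j : ℕ | j < N ∧ p j}.ncard = ((Finset.range N).filter p).card := by
    intro N p
    have : {j : ℕ | j < N ∧ p j} = (((Finset.range N).filter p : Finset ℕ) : Set ℕ) := by
      ext j
      rw [Finset.mem_coe, Finset.mem_filter, Finset.mem_range]
      rfl
    rw [this, Set.ncard_coe_finset]
  refine ⟨⟨H₀, fun H₁ hH₁ ζ => ?_⟩, fun ζ => ?_⟩
  · rw [hset, Set.ncard_coe_finset]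
    convert hH₀ H₁ hH₁ ζ
  · rw [hset, Set.ncard_coe_finset]
    simp only [hsetj]
    convert h2 ζ

end Pool.Agent.Results.MP_3cf473_nt.QuadraticUnits
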